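import Pool.Agent.H740R3.BQStmts

set_option autoImplicit false
set_option maxHeartbeats 4000000
set_option synthInstance.maxHeartbeats 400000

/-! Task 7 of the project H740-BQ. -/

open Filter Topology

namespace Pool.Agent.H66R3.BQ

open Pool.Agent.H740R3.BQ

universe u

section
variable {X : Type u} [NormedAddCommGroup X] [NormedSpace ℂ X]

/-- synthesis -/
noncomputable def Ph (D : ℕ) (E : ℕ → X) (v : Fin D → ℂ) : X := ∑ i : Fin D, v i • E i

/-- analysis -/
noncomputable def Ps (D : ℕ) (F : ℕ → StrongDual ℂ X) (f : X) : Fin D → ℂ := fun i => F i f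

/-- operator of a matrix -/
noncomputable def Op (D : ℕ) (E : ℕ → X) (F : ℕ → StrongDual ℂ X)
    (B : Matrix (Fin D) (Fin D) ℂ) : X →L[ℂ] X :=
  ∑ i : Fin D, ∑ j : Fin D, B i j • (F j).smulRight (E i)

/-- form of a matrix -/
noncomputable def Fm (D : ℕ) (F : ℕ → StrongDual ℂ X)
    (Γ : Matrix (Fin D) (Fin D) ℂ) : X →L[ℂ] X →L[ℂ] ℂ :=
  ∑ i : Fin D, ∑ j : Fin D, Γ i j • (F i).smulRight (F j)

variable {D : ℕ} {E : ℕ → X} {F : ℕ → StrongDual ℂ X}

theorem Op_apply (B : Matrix (Fin D) (Fin D) ℂ) (f : X) :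
    Op D E F B f = Ph D E (B.mulVec (Ps D F f)) := by
  simp only [Op, Ph, Ps, Matrix.mulVec, dotProduct, _root_.sum_apply,
    _root_.smul_apply, ContinuousLinearMap.smulRight_apply, Finset.sum_smul, smul_smul]

theorem Fm_apply (Γ : Matrix (Fin D) (Fin D) ℂ) (u v : X) :
    Fm D F Γ u v = Ps D F u ⬝ᵥ Γ.mulVec (Ps D F v) := by
  simp only [Fm, Ps, Matrix.mulVec, dotProduct, _root_.sum_apply,
    _root_.smul_apply, ContinuousLinearMap.smulRight_apply, smul_eq_mul,
    Finset.mul_sum]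
  refine Finset.sum_congr rfl fun i _ => Finset.sum_congr rfl fun j _ => ?_
  ring

theorem Ph_add (v w : Fin D → ℂ) : Ph D E (v + w) = Ph D E v + Ph D E w := by
  simp only [Ph, Pi.add_apply, add_smul, Finset.sum_add_distrib]

theorem Ph_smul (a : ℂ) (v : Fin D → ℂ) : Ph D E (a • v) = a • Ph D E v := by
  simp only [Ph, Pi.smul_apply, smul_eq_mul, Finset.smul_sum, smul_smul]

theorem Ph_sub (v w : Fin D → ℂ) : Ph D E (v - w) = Ph D E v - Ph D E w := by
  simp only [Ph, Pi.sub_apply, sub_smul, Finset.sum_sub_distrib]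

theorem Ph_zero : Ph D E 0 = 0 := by
  simp [Ph]

theorem Ph_sum {ι : Type} (s : Finset ι) (f : ι → Fin D → ℂ) :
    Ph D E (∑ k ∈ s, f k) = ∑ k ∈ s, Ph D E (f k) := by
  classical
  induction s using Finset.induction_on with
  | empty => simp [Ph_zero]
  | insert a s ha ih => rw [Finset.sum_insert ha, Finset.sum_insert ha, Ph_add, ih]

theorem Ps_Ph (hbio : ∀ i j, F i (E j) = if i = j then 1 else 0) (v : Fin D → ℂ) :
    Ps D F (Ph D E v) = v := by
  funext i
  simp only [Ps, Ph, map_sum, map_smul, smul_eq_mul, hbio]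
  rw [Finset.sum_eq_single i]
  · simp
  · intro j _ hj
    rw [if_neg (fun h => hj (Fin.ext h.symm)), mul_zero]
  · intro h
    exact absurd (Finset.mem_univ i) h

theorem Op_Ph (hbio : ∀ i j, F i (E j) = if i = j then 1 else 0)
    (B : Matrix (Fin D) (Fin D) ℂ) (v : Fin D → ℂ) :
    Op D E F B (Ph D E v) = Ph D E (B.mulVec v) := by
  rw [Op_apply, Ps_Ph hbio]

theorem Op_pow_Ph (hbio : ∀ i j, F i (E j) = if i = j then 1 else 0)
    (B : Matrix (Fin D) (Fin D) ℂ) (k : ℕ) (v : Fin D → ℂ) :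
    (Op D E F B ^ k) (Ph D E v) = Ph D E ((B ^ k).mulVec v) := by
  induction k generalizing v with
  | zero => simp
  | succ k ih =>
    rw [pow_succ, mul_apply_eq_comp, Op_Ph hbio, ih, Matrix.mulVec_mulVec,
      ← pow_succ]

theorem Op_one_add_pow_Ph (hbio : ∀ i j, F i (E j) = if i = j then 1 else 0)
    (B : Matrix (Fin D) (Fin D) ℂ) (k : ℕ) (v : Fin D → ℂ) :
    ((1 + Op D E F B) ^ k) (Ph D E v) = Ph D E (((1 + B) ^ k).mulVec v) := by
  induction k generalizing v with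
  | zero => simp
  | succ k ih =>
    rw [pow_succ, mul_apply_eq_comp, _root_.add_apply, Op_Ph hbio,
      one_apply_eq_self, ← Ph_add, ih]
    congr 1
    rw [pow_succ, ← Matrix.mulVec_mulVec, Matrix.add_mulVec, Matrix.one_mulVec]

theorem norm_Op_sub (B B' : Matrix (Fin D) (Fin D) ℂ) (δ : ℝ) (hδ : ∀ i j, ‖B i j - B' i j‖ ≤ δ) :
    ‖Op D E F B - Op D E F B'‖ ≤ δ * ∑ i : Fin D, ∑ j : Fin D, ‖F j‖ * ‖E i‖ := by
  have h1 : Op D E F B - Op D E F B' =
      ∑ i : Fin D, ∑ j : Fin D, (B i j - B' i j) • (F j).smulRight (E i) := by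
    simp only [Op, sub_smul, Finset.sum_sub_distrib]
  rw [h1, Finset.mul_sum]
  refine (norm_sum_le _ _).trans (Finset.sum_le_sum fun i _ => ?_)
  rw [Finset.mul_sum]
  refine (norm_sum_le _ _).trans (Finset.sum_le_sum fun j _ => ?_)
  rw [norm_smul, ContinuousLinearMap.norm_smulRight_apply]
  exact mul_le_mul_of_nonneg_right (hδ i j) (by positivity)

theorem Fm_sub (B B' : Matrix (Fin D) (Fin D) ℂ) : Fm D F B - Fm D F B' = Fm D F (B - B') := by
  ext u v
  rw [_root_.sub_apply, _root_.sub_apply, Fm_apply, Fm_apply, Fm_apply, Matrix.sub_mulVec,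
    dotProduct_sub]

theorem norm_gen {Y : Type u} [NormedAddCommGroup Y] [NormedSpace ℂ Y] (G : ℕ → Y)
    (C : Matrix (Fin D) (Fin D) ℂ) (δ : ℝ) (hδ : ∀ i j, ‖C i j‖ ≤ δ) :
    ‖∑ i : Fin D, ∑ j : Fin D, C i j • (F i).smulRight (G j)‖ ≤
      δ * ∑ i : Fin D, ∑ j : Fin D, ‖F i‖ * ‖G j‖ := by
  rw [Finset.mul_sum]
  refine (norm_sum_le _ _).trans (Finset.sum_le_sum fun i _ => ?_)
  rw [Finset.mul_sum]
  refine (norm_sum_le _ _).trans (Finset.sum_le_sum fun j _ => ?_)
  rw [norm_smul, ContinuousLinearMap.norm_smulRight_apply]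
  exact mul_le_mul_of_nonneg_right (hδ i j) (by positivity)

theorem norm_Fm (C : Matrix (Fin D) (Fin D) ℂ) (δ : ℝ) (hδ : ∀ i j, ‖C i j‖ ≤ δ) :
    ‖Fm D F C‖ ≤ δ * ∑ i : Fin D, ∑ j : Fin D, ‖F i‖ * ‖F j‖ :=
  norm_gen (F := F) (Y := StrongDual ℂ X) F C δ hδ

/-- limit matrices -/
noncomputable def LimA (D N : ℕ) : Matrix (Fin D) (Fin D) ℂ :=
  fun i j => if (i : ℕ) = j + 1 ∧ (i : ℕ) < N then 1 else 0

noncomputable def LimB (D N : ℕ) (c : ℕ → ℂ) : Matrix (Fin D) (Fin D) ℂ :=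
  fun i j => if (i : ℕ) < N ∧ (j : ℕ) < N then c (i + j) else 0

theorem norm_Fm_sub (B B' : Matrix (Fin D) (Fin D) ℂ) (δ : ℝ) (hδ : ∀ i j, ‖B i j - B' i j‖ ≤ δ) :
    ‖Fm D F B - Fm D F B'‖ ≤ δ * ∑ i : Fin D, ∑ j : Fin D, ‖F i‖ * ‖F j‖ := by
  rw [Fm_sub]
  exact norm_Fm _ δ hδ

theorem Op_nil (hbio : ∀ i j, F i (E j) = if i = j then 1 else 0) (hD : 0 < D)
    (B : Matrix (Fin D) (Fin D) ℂ) (hB : B ^ D = 0) : Op D E F B ^ D = 0 := by
  obtain ⟨k, rfl⟩ : ∃ k, D = k + 1 := ⟨D - 1, by omega⟩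
  ext f
  rw [pow_succ, mul_apply_eq_comp, Op_apply, Op_pow_Ph hbio,
    Matrix.mulVec_mulVec, ← pow_succ, hB, Matrix.zero_mulVec, Ph_zero]
  rfl

theorem norm_Ph (v : Fin D → ℂ) (δ : ℝ) (hδ : ∀ i, ‖v i‖ ≤ δ) :
    ‖Ph D E v‖ ≤ δ * ∑ i : Fin D, ‖E i‖ := by
  rw [Finset.mul_sum]
  refine (norm_sum_le _ _).trans (Finset.sum_le_sum fun i _ => ?_)
  rw [norm_smul]
  exact mul_le_mul_of_nonneg_right (hδ i) (by positivity)

end

theorem t7 : T7.{u} := by
  intro hSt h6 X _ _ e g heg N A b hst y hy ε hε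
  obtain ⟨E, F, hfr⟩ := h6 X e g heg N A b hst
  obtain ⟨p, hp0, hpy⟩ := hst.cyc y hy
  let c : ℕ → ℂ := fun k => if k < N then b ((A ^ k) (e 0)) (e 0) else 0
  set D : ℕ := 6 * N + 6 with hD
  have hND : N ≤ D := by omega
  set M : ℝ := (∑ i : Fin D, ∑ j : Fin D, ‖F j‖ * ‖E i‖) +
    (∑ i : Fin D, ∑ j : Fin D, ‖F i‖ * ‖F j‖) + (∑ i : Fin D, ‖E i‖) + 1 with hM
  have hM1 : 0 ≤ ∑ i : Fin D, ∑ j : Fin D, ‖F j‖ * ‖E i‖ :=
    Finset.sum_nonneg fun i _ => Finset.sum_nonneg fun j _ => by positivity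
  have hM2 : 0 ≤ ∑ i : Fin D, ∑ j : Fin D, ‖F i‖ * ‖F j‖ :=
    Finset.sum_nonneg fun i _ => Finset.sum_nonneg fun j _ => by positivity
  have hM3 : 0 ≤ ∑ i : Fin D, ‖E i‖ := Finset.sum_nonneg fun i _ => by positivity
  have hMpos : 0 < M := by linarith
  have hδ : 0 < ε / M := div_pos hε hMpos
  have hbd : ∀ r : ℝ, r ≤ M → ε / M * r ≤ ε := by
    intro r hr
    calc ε / M * r ≤ ε / M * M := mul_le_mul_of_nonneg_left hr hδ.le
      _ = ε := div_mul_cancel₀ _ hMpos.ne'
  obtain ⟨n, B, Γ, hB, hΓ, hnil, hcyc, hsym, hBΓ, hΓ0, horb⟩ :=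
    hSt N c p hst.pos (fun k hk => if_neg (by omega)) hp0 (ε / M) hδ
  have hbio := hfr.bio
  have hPhPs : ∀ f, Ph D E (Ps D F f) = PN e g D f := by
    intro f
    rw [← hfr.sumP D hND f, Finset.sum_range]
    rfl
  have hPNPh : ∀ v, PN e g D (Ph D E v) = Ph D E v := by
    intro v
    rw [← hPhPs, Ps_Ph hbio]
  have hPsPN : ∀ f, Ps D F (PN e g D f) = Ps D F f := by
    intro f
    rw [← hPhPs, Ps_Ph hbio]
  have hDpos : 0 < D := by omega
  have he0 : Ph D E (e0 D) = e 0 := by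
    have h1 : E 0 = e 0 := by
      rw [hfr.Elt 0 hst.pos, pow_zero]
      rfl
    rw [← h1, Ph, Finset.sum_eq_single (⟨0, hDpos⟩ : Fin D)]
    · simp [e0]
    · intro j _ hj
      have : (j : ℕ) ≠ 0 := fun h => hj (Fin.ext h)
      simp [e0, this]
    · intro h
      exact absurd (Finset.mem_univ _) h
  have hy' : y = Ph D E (fun i => if (i : ℕ) < N then p i else 0) := by
    rw [hpy, Ph, ← Finset.sum_range (fun i => (if i < N then p i else 0) • E i)]
    rw [← Finset.sum_subset (Finset.range_mono hND)]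
    · refine Finset.sum_congr rfl fun k hk => ?_
      rw [Finset.mem_range] at hk
      rw [if_pos hk, hfr.Elt k hk]
    · intro k _ hk
      rw [Finset.mem_range] at hk
      rw [if_neg hk, zero_smul]
  have hA : A = Op D E F (LimA D N) := by
    have h1 : Op D E F (LimA D N) =
        ∑ j ∈ Finset.range D, ∑ i ∈ Finset.range D,
          (if i = j + 1 ∧ i < N then (1 : ℂ) else 0) • (F j).smulRight (E i) := by
      rw [Op, Finset.sum_comm, Finset.sum_range]
      refine Finset.sum_congr rfl fun j _ => ?_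
      rw [Finset.sum_range]
      rfl
    rw [h1]
    conv_lhs => rw [hfr.AE]
    have h2 : ∀ j ∈ Finset.range D, (∑ i ∈ Finset.range D,
        (if i = j + 1 ∧ i < N then (1 : ℂ) else 0) • (F j).smulRight (E i)) =
        if j + 1 < N then (F j).smulRight (E (j + 1)) else 0 := by
      intro j _
      by_cases hj : j + 1 < N
      · rw [if_pos hj, Finset.sum_eq_single (j + 1)]
        · rw [if_pos ⟨rfl, hj⟩, one_smul]
        · intro i _ hi
          rw [if_neg (fun h => hi h.1), zero_smul]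
        · intro h
          exact absurd (Finset.mem_range.2 (by omega)) h
      · rw [if_neg hj]
        refine Finset.sum_eq_zero fun i _ => ?_
        rw [if_neg (by omega), zero_smul]
    rw [Finset.sum_congr rfl h2]
    refine Finset.sum_subset (Finset.range_mono hND) fun j _ hj => ?_
    rw [Finset.mem_range] at hj
    rw [if_neg (by omega)]
  have hb : b = Fm D F (LimB D N c) := by
    ext u v
    rw [Fm_apply, hfr.bE]
    simp only [Ps, dotProduct, Matrix.mulVec, Finset.mul_sum, LimB]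
    rw [← Finset.sum_range (fun i => ∑ j : Fin D, F i u *
      ((if i < N ∧ (j : ℕ) < N then c (i + j) else 0) * F j v)),
      ← Finset.sum_subset (Finset.range_mono hND)]
    · refine Finset.sum_congr rfl fun i hi => ?_
      rw [Finset.mem_range] at hi
      rw [← Finset.sum_range (fun j => F i u *
        ((if i < N ∧ j < N then c (i + j) else 0) * F j v)),
        ← Finset.sum_subset (Finset.range_mono hND)]
      · refine Finset.sum_congr rfl fun j hj => ?_
        rw [Finset.mem_range] at hj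
        have h3 : (if i < N ∧ j < N then c (i + j) else 0) =
            (if i + j < N then b ((A ^ (i + j)) (e 0)) (e 0) else 0) := if_pos ⟨hi, hj⟩
        rw [h3]
        ring
      · intro j _ hj
        rw [Finset.mem_range] at hj
        rw [if_neg (fun h => hj h.2), zero_mul, mul_zero]
    · intro i _ hi
      rw [Finset.mem_range] at hi
      refine Finset.sum_eq_zero fun j _ => ?_
      rw [if_neg (fun h => hi h.1), zero_mul, mul_zero]
  refine ⟨D, Op D E F B, Fm D F Γ, by omega, ?_, ?_, ?_, n, ?_⟩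
  · refine ⟨by omega, ?_, ?_, ?_, ?_, ?_, ?_, ?_, ?_⟩
    · intro f
      rw [Op_apply, hPNPh]
    · intro f
      rw [Op_apply, Op_apply, hPsPN]
    · exact Op_nil hbio hDpos B hnil
    · intro f hf
      obtain ⟨q, hq⟩ := hcyc (Ps D F f)
      refine ⟨fun k => if k < D then q k else 0, fun k hk => if_neg (by omega), ?_⟩
      have h1 : f = Ph D E (Ps D F f) := by rw [hPhPs, hf]
      rw [h1, hq, Ph_sum]
      refine Finset.sum_congr rfl fun k hk => ?_
      rw [Finset.mem_range] at hk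
      change _ = (if k < D then q k else 0) • _
      rw [if_pos hk, Ph_smul, ← he0, Op_pow_Ph hbio]
    · intro u v
      rw [Fm_apply, Fm_apply, Matrix.dotProduct_mulVec, ← Matrix.mulVec_transpose, hsym,
        dotProduct_comm]
    · intro u v
      rw [Fm_apply, Fm_apply, hPsPN]
    · intro u v
      rw [Fm_apply, Fm_apply, Op_apply, Op_apply, Ps_Ph hbio, Ps_Ph hbio]
      rw [Matrix.mulVec_mulVec, ← hBΓ, ← Matrix.mulVec_mulVec, Matrix.dotProduct_mulVec (Ps D F u),
        Matrix.vecMul_transpose]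
    · rw [Fm_apply, ← he0, Ps_Ph hbio]
      have h1 : (e0 D) ⬝ᵥ Γ.mulVec (e0 D) = Γ ⟨0, hDpos⟩ ⟨0, hDpos⟩ := by
        have h2 : e0 D = Pi.single ⟨0, hDpos⟩ 1 := by
          funext i
          rw [e0, Pi.single_apply]
          by_cases hi : (i : ℕ) = 0
          · rw [if_pos hi, if_pos (Fin.ext hi)]
          · rw [if_neg hi, if_neg (fun h => hi (by rw [h]))]
        rw [h2, Matrix.mulVec_single_one, single_one_dotProduct]
        rfl
      rw [h1, hΓ0 _ _ rfl rfl]
      change (if 0 < N then b ((A ^ 0) (e 0)) (e 0) else 0) = 1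
      rw [if_pos (show 0 < N from hst.pos), pow_zero]
      exact hst.b0
  · rw [hA]
    refine (norm_Op_sub B _ (ε / M) fun i j => (hB i j).le).trans (hbd _ (by linarith))
  · rw [hb]
    refine (norm_Fm_sub Γ _ (ε / M) fun i j => (hΓ i j).le).trans (hbd _ (by linarith))
  · rw [← he0, Op_one_add_pow_Ph hbio, hy', ← Ph_sub]
    refine (norm_Ph _ (ε / M) fun i => (horb i).le).trans (hbd _ (by linarith))

end Pool.Agent.H66R3.BQ
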